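import Pool.Agent.H132MA.Key

/-! # The two cases -/

set_option autoImplicit false

open Finset

namespace Pool.Agent.H132MA

theorem h24a : ∀ T ∈ T3, ∀ T' ∈ T3,
    ∑ U ∈ T4, (if T ⊆ U then (1 : ℤ) else 0) * (if T' ⊆ U then 1 else 0) =
      ∑ p ∈ T2, (if p ⊆ T then (1 : ℤ) else 0) * (if p ⊆ T' then 1 else 0) +
        if T = T' then 1 else 0 := by
  decide +kernel

theorem h24b : ∀ T ∈ T4, ∀ T' ∈ T4,
    ∑ U ∈ T3, (if U ⊆ T then (1 : ℤ) else 0) * (if U ⊆ T' then 1 else 0) =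
      ∑ p ∈ T2, (if Disjoint p T then (1 : ℤ) else 0) * (if Disjoint p T' then 1 else 0) +
        if T = T' then 1 else 0 := by
  decide +kernel

theorem ha1 : ∀ T ∈ T3, ∑ p ∈ T2, (if p ⊆ T then (1 : ℤ) else 0) = 3 := by decide +kernel

theorem ha2 : ∀ T ∈ T3, ∑ U ∈ T4, (if T ⊆ U then (1 : ℤ) else 0) = 4 := by decide +kernel

theorem ha3 : ∀ v : Fin 7, ∀ T ∈ T3,
    (∑ p ∈ T2.filter (fun p => v ∈ p), (if p ⊆ T then (1 : ℤ) else 0)) % 2 = 0 := by decide +kernel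

theorem hb1 : ∀ T ∈ T4, ∑ p ∈ T2, (if Disjoint p T then (1 : ℤ) else 0) = 3 := by decide +kernel

theorem hb2 : ∀ T ∈ T4, ∑ U ∈ T3, (if U ⊆ T then (1 : ℤ) else 0) = 4 := by decide +kernel

theorem hb3 : ∀ v : Fin 7, ∀ T ∈ T4,
    (∑ p ∈ T2.filter (fun p => v ∈ p), (if Disjoint p T then (1 : ℤ) else 0)) % 2 = 0 := by
  decide +kernel

theorem hev2 : ∀ v : Fin 7, (∑ _p ∈ T2.filter (fun p => v ∈ p), (1 : ℤ)) % 2 = 0 := by
  decide +kernel

theorem card_T2 : (T2.card : ℤ) = 21 := by decide +kernel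

theorem card_T3 : T3.card = 35 := by decide +kernel

theorem card_T4 : T4.card = 35 := by decide +kernel

theorem up_four : ∀ T ∈ T3, (T4.filter fun U => T ⊆ U).card ≤ 4 := by decide +kernel

theorem down_four : ∀ U ∈ T4, (T3.filter fun T => T ⊆ U).card ≤ 4 := by decide +kernel

theorem case_a (X : Finset (Finset (Fin 7))) (hX : X ⊆ T3) (hX7 : X.card = 7)
    (h27 : (T4.filter fun U => ∃ T ∈ X, T ⊆ U).card = 27) : False := by
  refine key T3 T4 X hX (fun p T => if p ⊆ T then (1 : ℤ) else 0)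
    (fun U T => if T ⊆ U then (1 : ℤ) else 0) (fun U _ T _ => ?_) ha1 ha2 h24a
    (fun v T hT => Int.even_iff.2 (ha3 v T hT)) (fun v => Int.even_iff.2 (hev2 v)) card_T2 hX7 ?_
  · by_cases h : T ⊆ U
    · exact Or.inr (if_pos h)
    · exact Or.inl (if_neg h)
  · rw [← h27]
    congr 1
    ext U
    simp

theorem case_b (F : Finset (Finset (Fin 7))) (hF : F ⊆ T4) (hF7 : F.card = 7)
    (h27 : (T3.filter fun T => ∃ U ∈ F, T ⊆ U).card = 27) : False := by
  refine key T4 T3 F hF (fun p T => if Disjoint p T then (1 : ℤ) else 0)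
    (fun U T => if U ⊆ T then (1 : ℤ) else 0) (fun U _ T _ => ?_) hb1 hb2 h24b
    (fun v T hT => Int.even_iff.2 (hb3 v T hT)) (fun v => Int.even_iff.2 (hev2 v)) card_T2 hF7 ?_
  · by_cases h : U ⊆ T
    · exact Or.inr (if_pos h)
    · exact Or.inl (if_neg h)
  · rw [← h27]
    congr 1
    ext U
    simp

end Pool.Agent.H132MA
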