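import Mathlib

/-! # Seven triples with one overlap -/

set_option autoImplicit false

open Finset

namespace Pool.Agent.H132MA

/-- the pairs, triples and quadruples of the seven points -/
def T2 : Finset (Finset (Fin 7)) := powersetCard 2 univ
def T3 : Finset (Finset (Fin 7)) := powersetCard 3 univ
def T4 : Finset (Finset (Fin 7)) := powersetCard 4 univ

theorem key (Y Q : Finset (Finset (Fin 7))) (X : Finset (Finset (Fin 7))) (hX : X ⊆ Y)
    (a b : Finset (Fin 7) → Finset (Fin 7) → ℤ) (hb0 : ∀ U ∈ Q, ∀ T ∈ Y, b U T = 0 ∨ b U T = 1)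
    (h3 : ∀ T ∈ Y, ∑ p ∈ T2, a p T = 3) (h4 : ∀ T ∈ Y, ∑ U ∈ Q, b U T = 4)
    (h24 : ∀ T ∈ Y, ∀ T' ∈ Y, ∑ U ∈ Q, b U T * b U T' =
      ∑ p ∈ T2, a p T * a p T' + if T = T' then 1 else 0)
    (hev : ∀ v, ∀ T ∈ Y, Even (∑ p ∈ T2.filter (fun p => v ∈ p), a p T))
    (hev2 : ∀ v, Even (∑ _p ∈ T2.filter (fun p => v ∈ p), (1 : ℤ)))
    (hT2 : (T2.card : ℤ) = 21)
    (hX7 : X.card = 7) (h27 : (Q.filter fun U => ∃ T ∈ X, b U T = 1).card = 27) : False := by
  classical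
  set m : Finset (Fin 7) → ℤ := fun p => ∑ T ∈ X, a p T with hm
  set s : Finset (Fin 7) → ℤ := fun U => ∑ T ∈ X, b U T with hs
  have sm : ∑ p ∈ T2, m p = 21 := by
    rw [hm, sum_comm, sum_congr rfl fun T hT => h3 T (hX hT), sum_const, hX7]
    norm_num
  have ss : ∑ U ∈ Q, s U = 28 := by
    rw [hs, sum_comm, sum_congr rfl fun T hT => h4 T (hX hT), sum_const, hX7]
    norm_num
  have sq : ∑ U ∈ Q, s U * s U = ∑ p ∈ T2, m p * m p + 7 := by
    have e1 : ∀ U ∈ Q, s U * s U = ∑ T ∈ X, ∑ T' ∈ X, b U T * b U T' := fun U _ => sum_mul_sum _ _ _ _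
    have e2 : ∀ p ∈ T2, m p * m p = ∑ T ∈ X, ∑ T' ∈ X, a p T * a p T' := fun U _ => sum_mul_sum _ _ _ _
    rw [sum_congr rfl e1, sum_congr rfl e2, sum_comm, sum_comm (s := T2)]
    have e3 : ∀ T ∈ X, ∑ U ∈ Q, ∑ T' ∈ X, b U T * b U T' =
        ∑ p ∈ T2, ∑ T' ∈ X, a p T * a p T' + 1 := by
      intro T hT
      rw [sum_comm, sum_comm (s := T2), sum_congr rfl fun T' hT' => h24 T (hX hT) T' (hX hT'),
        sum_add_distrib, sum_ite_eq, if_pos hT]
    rw [sum_congr rfl e3, sum_add_distrib, sum_const, hX7]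
    norm_num
  -- the 4-sets
  have hs0 : ∀ U ∈ Q, 0 ≤ s U := fun U hU => sum_nonneg fun T hT => by
    rcases hb0 U hU T (hX hT) with h | h <;> rw [h]
    norm_num
  have hs1 : ∀ U ∈ Q, (∃ T ∈ X, b U T = 1) → 1 ≤ s U := by
    rintro U hU ⟨T, hT, h1⟩
    rw [← h1]
    refine single_le_sum (f := fun T => b U T) (fun T' hT' => ?_) hT
    rcases hb0 U hU T' (hX hT') with h | h <;> simp only [h] <;> norm_num
  have hs2 : ∀ U ∈ Q, ¬ (∃ T ∈ X, b U T = 1) → s U = 0 := by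
    intro U hU h
    refine sum_eq_zero fun T hT => ?_
    rcases hb0 U hU T (hX hT) with h1 | h1
    · exact h1
    · exact absurd ⟨T, hT, h1⟩ h
  set z : Finset (Fin 7) → ℤ := fun U => if ∃ T ∈ X, b U T = 1 then 1 else 0 with hz
  have sz : ∑ U ∈ Q, z U = 27 := by
    rw [hz, ← sum_filter, sum_const, h27]
    norm_num
  have st : ∑ U ∈ Q, (s U - z U) = 1 := by
    rw [sum_sub_distrib, ss, sz]
    norm_num
  have ht0 : ∀ U ∈ Q, 0 ≤ s U - z U := by
    intro U hU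
    by_cases h : ∃ T ∈ X, b U T = 1
    · have := hs1 U hU h
      simp only [hz, if_pos h]
      linarith
    · simp only [hz, if_neg h, hs2 U hU h]
      norm_num
  have ht1 : ∀ U ∈ Q, s U - z U ≤ 1 := by
    intro U hU
    rw [← st]
    exact single_le_sum (f := fun U => s U - z U) ht0 hU
  have hsq : ∀ U ∈ Q, s U * s U = s U + 2 * (s U - z U) := by
    intro U hU
    have h0 := ht0 U hU
    have h1 := ht1 U hU
    by_cases h : ∃ T ∈ X, b U T = 1
    · have hzU : z U = 1 := if_pos h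
      rw [hzU] at h0 h1 ⊢
      have h2 : s U = 1 ∨ s U = 2 := by omega
      rcases h2 with h2 | h2 <;> rw [h2] <;> norm_num
    · have hzU : z U = 0 := if_neg h
      rw [hzU, hs2 U hU h]
      norm_num
  have sq2 : ∑ U ∈ Q, s U * s U = 30 := by
    rw [sum_congr rfl hsq, sum_add_distrib, ← mul_sum, ss, st]
    norm_num
  -- the pairs
  have se : ∑ p ∈ T2, (m p - 1) ^ 2 = 2 := by
    have e : ∀ p ∈ T2, (m p - 1) ^ 2 = m p * m p - 2 * m p + 1 := fun p _ => by ring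
    rw [sum_congr rfl e, sum_add_distrib, sum_sub_distrib, ← mul_sum, sm, sum_const, nsmul_eq_mul,
      hT2]
    linarith
  have hpar : ∀ v, Even (∑ p ∈ T2.filter (fun p => v ∈ p), (m p - 1)) := by
    intro v
    rw [sum_sub_distrib]
    refine Even.sub ?_ (hev2 v)
    rw [hm, sum_comm]
    exact even_sum _ fun T hT => hev v T (hX hT)
  -- two exceptional pairs
  have hne : ∃ p ∈ T2, (m p - 1) ^ 2 ≠ 0 := by
    by_contra h
    push Not at h
    rw [sum_eq_zero h] at se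
    norm_num at se
  obtain ⟨p, hp, hp0⟩ := hne
  have hsplit := add_sum_erase T2 (fun p => (m p - 1) ^ 2) hp
  simp only [se] at hsplit
  have hp1 : (m p - 1) ^ 2 = 1 := by
    have h1 : 0 ≤ ∑ x ∈ T2.erase p, (m x - 1) ^ 2 := sum_nonneg fun x _ => sq_nonneg _
    have h2 : (m p - 1) ^ 2 ≤ 2 := by linarith
    have h3 : -2 < m p - 1 := by nlinarith
    have h4 : m p - 1 < 2 := by nlinarith
    have h5 : m p - 1 = -1 ∨ m p - 1 = 0 ∨ m p - 1 = 1 := by omega
    rcases h5 with h5 | h5 | h5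
    · rw [h5]; norm_num
    · exact absurd (by rw [h5]; norm_num) hp0
    · rw [h5]; norm_num
  have hne2 : ∃ p' ∈ T2.erase p, (m p' - 1) ^ 2 ≠ 0 := by
    by_contra h
    push Not at h
    rw [sum_eq_zero h, hp1] at hsplit
    norm_num at hsplit
  obtain ⟨p', hp', hp'0⟩ := hne2
  have hsplit2 := add_sum_erase (T2.erase p) (fun p => (m p - 1) ^ 2) hp'
  have hrest : ∀ x ∈ (T2.erase p).erase p', (m x - 1) ^ 2 = 0 := by
    have h1 : 1 ≤ (m p' - 1) ^ 2 := by
      have h2 : 0 ≤ (m p' - 1) ^ 2 := sq_nonneg _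
      omega
    have h3 : ∑ x ∈ (T2.erase p).erase p', (m x - 1) ^ 2 ≤ 0 := by
      linarith
    have h4 : ∑ x ∈ (T2.erase p).erase p', (m x - 1) ^ 2 = 0 :=
      le_antisymm h3 (sum_nonneg fun x _ => sq_nonneg _)
    exact (sum_eq_zero_iff_of_nonneg fun x _ => sq_nonneg _).1 h4
  have hpp : p' ≠ p := (mem_erase.1 hp').1
  have hp'2 : p' ∈ T2 := (mem_erase.1 hp').2
  have hcp : p.card = 2 := (mem_powersetCard.1 hp).2
  have hcp' : p'.card = 2 := (mem_powersetCard.1 hp'2).2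
  obtain ⟨v, hv, hv'⟩ : ∃ v ∈ p, v ∉ p' := by
    by_contra h
    push Not at h
    have : p = p' := eq_of_subset_of_card_le h (by rw [hcp, hcp'])
    exact hpp this.symm
  have hsum : ∑ x ∈ T2.filter (fun p => v ∈ p), (m x - 1) = m p - 1 := by
    refine sum_eq_single_of_mem p (mem_filter.2 ⟨hp, hv⟩) fun x hx hxp => ?_
    have hx2 := mem_filter.1 hx
    have hxp' : x ≠ p' := by
      rintro rfl
      exact hv' hx2.2
    have := hrest x (mem_erase.2 ⟨hxp', mem_erase.2 ⟨hxp, hx2.1⟩⟩)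
    exact pow_eq_zero_iff (by norm_num) |>.1 this
  have h9 := hpar v
  rw [hsum] at h9
  obtain ⟨k, hk⟩ := h9
  rw [hk] at hp1
  have : (k + k) ^ 2 = 4 * (k * k) := by ring
  omega

end Pool.Agent.H132MA
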